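import Pool.Agent.H367.OS.GSer

/-!
# Geometric origin of the representations of Bianchi newforms and one sequence of cubics

A relation `r` of size `m` is one of the equations `x_i x_j = x_l`, `x_i + x_j = x_l`, `x_i = 1` with
`i, j, l < m`; the relations are numbered, the number of `r` is `ν(r)` (`relNum`). Let `G_m` be the
following polynomial with integral coefficients (`univG ℤ m`). There are variables `x_i` and `z_ij` for
`i, j < m`, a variable `c_r` for every relation `r`, and variables `y_{r,l}` for all relations `r` and
`l < (m + 1) 2 ^ ν(r)`. The equations (`eqnG`) are

  `z_ij - x_i x_j`,  `c_r ^ 2 - c_r`,  `c_r ρ_r`,  `(1 - c_r) y_{r,l}`,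

where `ρ_r` is the linear polynomial `z_ij - x_l`, `x_i + x_j - x_l` or `x_i - 1` of the relation.
`G_m` is the sum of the equations multiplied by further variables `t_e`, one for each equation. It has
degree three. Let `C_m` be the affine cubic hypersurface `G_m = 1` (`cubG R m` over the ring `R`); it is
smooth over the integers.

Let `K` be an imaginary quadratic field, and for every prime number `p` let `A p` be the abelian
category of finite-dimensional continuous representations of `G_K` over `ℚ̄_p`, with the Tate twists
`N ↦ N(a)`. For a separated scheme `X` of finite type over `ℚ` let `(D p).G w j X = Gr^W_w H^j_c(X_ℚ̄,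
ℚ̄_p)` be the part of weight `w` of the cohomology with compact supports, restricted to `G_K`; for
smooth projective `Y` it is `H^j(Y_ℚ̄, ℚ̄_p)` if `j = w`, and zero otherwise.

Let `Form` be the Bianchi newforms as in the problem (with `χ = χ^c`), `good f p` the condition that
`p` is unramified in `K` and coprime to the level, and `ρ f p` the representation `ρ_{f,p}`. It arises
from étale cohomology if and only if it is a subquotient of `H^i(Y_ℚ̄, ℚ̄_p)(t)` for a smooth
projective scheme `Y` over `ℚ` (`FromGeometry`): a smooth projective scheme over `K` is a union of
connected components of `Y_K` for the same scheme `Y` over `ℚ`. This is the hypothesis `arises`.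

**Theorem.** Let `E_m` be the number of the equations, and for `N ∈ ℕ` let `e = (m + 1) N + E_m - 1`
(`esh m N`).

(1) For every newform `f` and every good prime `p`, the representation `ρ_{f,p}` arises from étale
cohomology if and only if for all large `m` it is a subquotient of a Tate twist of a single
representation `Gr^W_{j-1} H^j_c(C_m)`, and if and only if this is true for one `m`. Question Q1 has a
positive answer if and only if this is so for all `f` and `p`.

(2) For all `w` and `t`, it is a subquotient of `H^w(Y)(t)` for some smooth projective scheme `Y` over
`ℚ` if and only if for all large `m` it is a subquotient of the single representation `Gr^W_{w+2e}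
H^{w+2e+1}_c(C_m)(t + e)`, for some `N`. (For a newform of weight `k + 2` one expects `w = k + 1`.)

(3) `G_m` has integral coefficients and degree at most three, and `C_m` is smooth over all rings.

The hypotheses on the category and on the pieces are standard (`IsGeo`): exact sequences, affine
bundles, the cohomology of affine spaces, the weights of `H^j_c(X)` are between `0` and `2 dim X`,
`Gr^W_w H^j_c(X)` is a subquotient of `H^w(Y)` for some smooth projective `Y` (weight spectral
sequence), and every smooth projective scheme has an affine bundle whose total space is affine
(Jouanolou). The category need not be semisimple.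

Idea of the proof. The projection of `C_m` to the affine space with the coordinates `x, z, c, y` is an
affine bundle over the complement of the zero set `W_m` of the equations. The scheme `W_m` is the
disjoint union, over all sets `s` of relations (`c_r = 1` for `r ∈ s` and `c_r = 0` for the others), of
the products `X_s × 𝔸 ^ ((m + 1) N(s))`, where `X_s` is the affine scheme defined by the relations in
`s` and `N(s) = ∑_{r ∈ s} 2 ^ ν(r)`. The numbers `N(s)` are different, and the weights of the
cohomology of `X_s` are between `0` and `2 m`. So the part of weight `w + 2 (m + 1) N(s)`,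
`0 ≤ w ≤ 2 m + 1`, of the cohomology of `W_m` is the twist of the part of weight `w` of the cohomology of
`X_s`, and it is different from the weight of the cohomology of the affine space. Every affine scheme of
finite type over a prime field is an `X_s`, for all large `m`. The pieces of the cohomology of an
arbitrary scheme are direct factors of those of a disjoint union of affine schemes.

The universal system of relations is the one of helper854 (`Pool.Agent.H854.SQ`).
-/

set_option autoImplicit false

open CategoryTheory CategoryTheory.Limits AlgebraicGeometry Pool.Agent.Y116.UV Pool.Agent.Z125.UN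
  Pool.Agent.Q193.LT Pool.Agent.H854.SQ Pool.Agent.H367.OS

universe v u



namespace Pool.Agent.Results.MP_2e0e07_nt.PiecesOfOneSequence

/-- **Geometric origin of the representations of Bianchi newforms and one sequence of cubic
hypersurfaces over the integers.** See the explanations above; `irreducible` is a known property of the
representations `ρ_{f,p}`. -/
theorem result {A : Nat.Primes → Type u} [∀ p, Category.{v} (A p)] [∀ p, Abelian (A p)]
    {D : ∀ p, Pieces ℚ (A p)} (h : ∀ p, IsGeo (D p)) {Form : Type} {good : Form → Nat.Primes → Prop}
    {ρ : Form → ∀ p, A p} (irreducible : ∀ f p, good f p → Simple (ρ f p))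
    {Arises : ∀ p, A p → Prop} (arises : ∀ p V, Arises p V ↔ FromGeometry (D p) V) :
    (∀ (f : Form) (p : Nat.Primes), List.TFAE [
      Arises p (ρ f p),
      ∀ᶠ m in Filter.atTop, OccursIn (D p) m (ρ f p),
      ∃ m, OccursIn (D p) m (ρ f p)]) ∧
    ((∀ (f : Form) (p : Nat.Primes), good f p → Arises p (ρ f p)) ↔
      ∀ (f : Form) (p : Nat.Primes), good f p → ∃ m, OccursIn (D p) m (ρ f p)) ∧
    (∀ (f : Form) (p : Nat.Primes), good f p → ∀ (w : ℕ) (t : ℤ),
      (∃ Y : Sch ℚ, SmoothProj Y ∧ SubQuot (ρ f p) (((D p).tw t).obj ((D p).G w w Y))) ↔
        ∀ᶠ m in Filter.atTop, ∃ N : ℕ, SubQuot (ρ f p) (((D p).tw (t + esh m N)).obj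
          ((D p).G (w + 2 * esh m N) (w + 2 * esh m N + 1) (cubG ℚ m)))) ∧
    ∀ m : ℕ, (univG ℤ m).totalDegree ≤ 3 ∧
      ∀ (R : Type) [CommRing R], MvPolynomial.map (Int.castRingHom R) (univG ℤ m) = univG R m ∧
        Smooth (cubG R m).hom := by
  have h1 : ∀ (f : Form) (p : Nat.Primes), List.TFAE [
      Arises p (ρ f p),
      ∀ᶠ m in Filter.atTop, OccursIn (D p) m (ρ f p),
      ∃ m, OccursIn (D p) m (ρ f p)] := by
    intro f p
    have h2 := from_geometry isPrimeField_rat (h p) (ρ f p)
    tfae_have 1 → 2 := fun g => (h2.out 0 1).mp ((arises p _).mp g)
    tfae_have 2 → 3 := fun g => (h2.out 1 2).mp g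
    tfae_have 3 → 1 := fun g => (arises p _).mpr ((h2.out 0 2).mpr g)
    tfae_finish
  refine ⟨h1, forall₃_congr fun f p _ => (h1 f p).out 0 2, fun f p hf w t => ?_, cubG_facts⟩
  have := irreducible f p hf
  exact simple_weight isPrimeField_rat (h p) (ρ f p) w t

end Pool.Agent.Results.MP_2e0e07_nt.PiecesOfOneSequence
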